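import Pool.Agent.W719.AX.Dbl

/-!
AX-DBL: the Kashaev invariant of a double.
-/

set_option autoImplicit false

namespace Pool.Agent.W196.AX

open Finset Filter Topology Metric
open Pool.Agent.W711.HT hiding XX
open Pool.Agent.W719.AR Pool.Agent.W719.AX
open scoped Real

theorem ne_ng (t : Tr) : ne (ng t) = ne t := by
  induction t with
  | vx a => rfl
  | br t c iht ihc => simp only [ng, ne, iht, ihc]

theorem ws_ng (t : Tr) : ws (ng t) = - ws t := by
  induction t with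
  | vx a => rfl
  | br t c iht ihc => simp only [ng, ws, iht, ihc]; ring

theorem dbl (hJ : S_DJT) (hR : S_RTX) : S_DBL := by
  intro t N hN
  set S : ℝ := ∑ d ∈ range N,
    ‖upp (1 / N) fun ψ => Ea t.wt N ψ * XX t N ψ * Rp N d ψ * kr N ψ‖ ^ 2 / Sd N d ^ 4 with hS
  have hS0 : 0 ≤ S := by
    apply Finset.sum_nonneg
    intro d _
    apply div_nonneg (by positivity)
    exact Even.pow_nonneg (by decide) _
  refine ⟨((N : ℝ) ^ 2 / (2 * π)) ^ (2 * ne t + 2) * S, by positivity, ?_⟩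
  rw [hR _ N hN, hJ t N hN, ← hS]
  have h1 : ne (.br t (ng t)) = 2 * ne t + 1 := by
    simp only [ne, ne_ng]; ring
  have h2 : ws (.br t (ng t)) = 0 := by
    simp only [ws, ws_ng]; ring
  rw [h1, h2, zpow_zero, mul_one]
  have h3 : ((-1 : ℂ)) ^ ((N - 1) * (2 * ne t + 1)) = (-1) ^ (N - 1) := by
    have : (N - 1) * (2 * ne t + 1) = 2 * ((N - 1) * ne t) + (N - 1) := by ring
    rw [this, pow_add, pow_mul]
    simp
  have h4 : (Complex.I * N ^ 2 / (2 * π)) ^ (2 * ne t + 1 + 1) =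
      (-1) ^ (ne t + 1) * (((N : ℂ) ^ 2 / (2 * π)) ^ (2 * ne t + 2)) := by
    have : 2 * ne t + 1 + 1 = 2 * (ne t + 1) := by ring
    rw [this, mul_div_assoc, mul_pow, pow_mul Complex.I, Complex.I_sq]
  have h5 : ((-1 : ℂ) ^ (ne t + 1)) * ((-1 : ℂ) ^ (ne t + 1)) = 1 := by
    rw [← mul_pow]; simp
  rw [h3, h4]
  push_cast
  linear_combination ((-1 : ℂ) ^ (N - 1) * (((N : ℂ) ^ 2 / (2 * π)) ^ (2 * ne t + 2)) * (S : ℂ)) * h5

end Pool.Agent.W196.AX
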